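import Mathlib
import Pool.Agent.Helper116_EM.ZetaAll

set_option autoImplicit false

/-!
# The zeta values and the tails of their multiple integrals: joint measures of algebraic independence

For an integer `k ≥ 2` let `ω = exp (2 π i / k)`. For a rational number `x ≥ 0` let `R_k(x)` be the number
`(-1)^k / k! * ∫ (∑_j ω^j log t_j)^k exp (-∑_j t_j) dt`, the integral being over the points of the octant
`(0, ∞)^k` with `max t_j ≥ x`.

(1) `R_k(x)` is real, and `R_k(0) = ζ(k)`.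

(2) Let `x_0, …, x_m ≥ 0` be distinct rational numbers, and let `D` be given. There are `κ` and `c > 0`
such that for all nonzero polynomials `P` (in two variables) and `Q` (in `m + 1` variables) with integer
coefficients, of total degree at most `D` and with coefficients of absolute value at most `H`
`max (|P(e, R_k(x_0))|, |Q(e, R_k(x_1), …, R_k(x_m))|) ≥ c H^(-κ)`.

(3) If `R_k(x_0)` is algebraic over `ℚ(e)` (for instance `ζ(k)`, for `x_0 = 0`), then there is such a measure of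
algebraic independence for `e` and the other numbers `R_k(x_1), …, R_k(x_m)`.

Proof of (2).  The differences `R_k(0) - R_k(x)` are polynomials in values of E-functions at rational points. A
measure of linear independence in the theorem of Siegel and Shidlovskii gives a measure of algebraic
independence for `e` and the numbers `R_k(x_j) - R_k(x_0)`, `1 ≤ j ≤ m`.  The number `R_k(x_0)` is eliminated
by the resultant of `P(e, X)` and `Q(e, X + R_k(x_1) - R_k(x_0), …, X + R_k(x_m) - R_k(x_0))`.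
-/

namespace Pool.Agent.Results.MP_c2395a_nt.JointMeasureOfTails

open Set MeasureTheory

/-- `ω = exp (2 π i / k)` -/
noncomputable def root (k : ℕ) : ℂ := Complex.exp (2 * Real.pi * Complex.I / k)

/-- `(∑_j ω^j log t_j)^k exp (-∑_j t_j)` -/
noncomputable def integrand (k : ℕ) (t : Fin k → ℝ) : ℂ :=
  (∑ j : Fin k, root k ^ (j : ℕ) * (Real.log (t j) : ℂ)) ^ k * ((Real.exp (-∑ j, t j) : ℝ) : ℂ)

/-- the points of `(0, ∞)^k` with `max t_j ≥ x` -/
def rest (k : ℕ) (x : ℝ) : Set (Fin k → ℝ) := {t | (∀ j, 0 < t j) ∧ ∃ j, x ≤ t j}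

/-- `R_k(x)`, as a complex number -/
noncomputable def tailIntegral (k : ℕ) (x : ℚ) : ℂ :=
  (-1) ^ k / k.factorial * ∫ t in rest k x, integrand k t

/-- `R_k(x)`, as a real number -/
noncomputable def R (k : ℕ) (x : ℚ) : ℝ := (tailIntegral k x).re

/-- `P` is not zero, its total degree is at most `D` and its coefficients are at most `H` in absolute
value -/
def Bounded {n : ℕ} (D H : ℕ) (P : MvPolynomial (Fin n) ℤ) : Prop :=
  P ≠ 0 ∧ P.totalDegree ≤ D ∧ ∀ s, |MvPolynomial.coeff s P| ≤ (H : ℤ)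

/-- the family `(e, v_1, …, v_m)` has a measure of algebraic independence which is polynomial in the height -/
def Measure {m : ℕ} (v : Fin m → ℝ) : Prop :=
  ∀ D : ℕ, ∃ (κ : ℕ) (c : ℝ), 0 < c ∧ ∀ (H : ℕ) (Q : MvPolynomial (Fin (m + 1)) ℤ), Bounded D H Q →
    c / (H : ℝ) ^ κ ≤ |MvPolynomial.aeval (Fin.cons (Real.exp 1) v : Fin (m + 1) → ℝ) Q|

/-- `P(e, x) = 0` for some polynomial `P ≠ 0` with integer coefficients -/
def Related (x : ℝ) : Prop := ∃ P : MvPolynomial (Fin 2) ℤ, P ≠ 0 ∧ MvPolynomial.aeval ![Real.exp 1, x] P = 0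

theorem measure_of_related {k : ℕ} (hk : 2 ≤ k) (m : ℕ) (x : Fin (m + 1) → ℚ) (hx : Function.Injective x)
    (hpos : ∀ j, 0 ≤ x j) (h0 : Related (R k (x 0))) : Measure (fun j => R k (x (Fin.succ j))) := by
  obtain ⟨P, hP0, hP⟩ := h0
  obtain ⟨H₀, hH₀⟩ : ∃ H₀ : ℕ, ∀ s, |MvPolynomial.coeff s P| ≤ (H₀ : ℤ) := by
    refine ⟨∑ s ∈ P.support, (MvPolynomial.coeff s P).natAbs, fun s => ?_⟩
    by_cases hs : s ∈ P.support
    · have h1 : (MvPolynomial.coeff s P).natAbs ≤ ∑ s ∈ P.support, (MvPolynomial.coeff s P).natAbs :=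
        Finset.single_le_sum (f := fun s => (MvPolynomial.coeff s P).natAbs) (fun _ _ => Nat.zero_le _) hs
      rw [Int.abs_eq_natAbs]
      exact_mod_cast h1
    · rw [MvPolynomial.notMem_support_iff.1 hs, abs_zero]
      positivity
  intro D
  obtain ⟨κ, c, hc, h⟩ := Pool.Agent.Helper116_EM.zeta_all hk m (max D P.totalDegree) x hx hpos
  have hH1 : 1 ≤ H₀ := Pool.Agent.Helper116_EM.BoundedZ.one_le (D := P.totalDegree) ⟨hP0, le_rfl, hH₀⟩
  have hH1' : (0 : ℝ) < H₀ := by exact_mod_cast hH1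
  refine ⟨κ, c / (H₀ : ℝ) ^ κ, by positivity, fun H Q hQ => ?_⟩
  have hHQ : 1 ≤ H := Pool.Agent.Helper116_EM.BoundedZ.one_le hQ
  have hHQ' : (0 : ℝ) < H := by exact_mod_cast hHQ
  have e1 : H₀ ≤ H₀ * H := Nat.le_mul_of_pos_right _ hHQ
  have e2 : H ≤ H₀ * H := Nat.le_mul_of_pos_left _ hH1
  have h1 := h (H₀ * H) P Q ⟨hP0, le_max_right _ _, fun s => (hH₀ s).trans (by exact_mod_cast e1)⟩
    ⟨hQ.1, hQ.2.1.trans (le_max_left _ _), fun s => (hQ.2.2 s).trans (by exact_mod_cast e2)⟩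
  have h2 : MvPolynomial.aeval ![Real.exp 1, (Pool.Agent.Helper116_EM.tailZ k (x 0)).re] P = 0 := hP
  rw [h2, abs_zero, max_eq_right (abs_nonneg _)] at h1
  refine le_trans (le_of_eq ?_) h1
  push_cast
  rw [div_div, mul_pow]

theorem result {k : ℕ} (hk : 2 ≤ k) :
    -- (1)
    (R k 0 = ∑' n : ℕ, 1 / ((n : ℝ) + 1) ^ k ∧ ∀ x : ℚ, 0 ≤ x → tailIntegral k x = (R k x : ℂ)) ∧
    -- (2)
    (∀ (m D : ℕ) (x : Fin (m + 1) → ℚ), Function.Injective x → (∀ j, 0 ≤ x j) →
      ∃ (κ : ℕ) (c : ℝ), 0 < c ∧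
        ∀ (H : ℕ) (P : MvPolynomial (Fin 2) ℤ) (Q : MvPolynomial (Fin (m + 1)) ℤ), Bounded D H P → Bounded D H Q →
          c / (H : ℝ) ^ κ ≤ max |MvPolynomial.aeval ![Real.exp 1, R k (x 0)] P|
            |MvPolynomial.aeval (Fin.cons (Real.exp 1) (fun j => R k (x j.succ)) : Fin (m + 1) → ℝ) Q|) ∧
    -- (3)
    (∀ (m : ℕ) (x : Fin (m + 1) → ℚ), Function.Injective x → (∀ j, 0 ≤ x j) → Related (R k (x 0)) →
      Measure (fun j : Fin m => R k (x j.succ))) := by
  refine ⟨⟨?_, fun x hx => ?_⟩, fun m D x hx hpos => ?_, fun m x hx hpos h0 => ?_⟩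
  · have h1 : tailIntegral k 0 = (Pool.Agent.R352.E.zt k : ℂ) := Pool.Agent.Helper116_EM.tailZ_zero hk
    rw [R, h1, Complex.ofReal_re]
    rfl
  · have h1 : tailIntegral k x = ((Pool.Agent.Helper116_EM.num k (Pool.Agent.Helper116_EM.nmZ x) : ℝ) : ℂ) :=
      (Pool.Agent.Helper116_EM.num_nmZ hk hx).symm
    rw [R, h1, Complex.ofReal_re]
  · exact Pool.Agent.Helper116_EM.zeta_all hk m D x hx hpos
  · exact measure_of_related hk m x hx hpos h0

end Pool.Agent.Results.MP_c2395a_nt.JointMeasureOfTails
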