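import Mathlib
import Pool.Agent.H55NR.Main

/-!
# Near linear relations between many odd zeta values and arbitrary numbers

`∑' n, 1 / (n + 1) ^ j` is `ζ(j)`. Let `2^(264 (D + 1)) (b + 1)² K³ log (K + 1) ≤ s²`. Let `J` be any set which contains
all but at most `K - 1` of the odd integers `j` with `b < j ≤ s`, and let `t_1, …, t_r` be arbitrary real numbers. At every large scale `X` the near relations

`|a_0 + ∑_{j ∈ J} a_j ζ(j) + ∑_k e_k t_k| < X ^ (-E)`, `a_j, e_k` integers of absolute value at most `X`,

span a space of dimension at most `|J| + r - D - 1`: this is less by `D + 2` than the number `1 + |J| + r` of unknown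
coefficients. Here `E = (R + 2) (2 D + 2)`, `R = |J| + r - D`, and how large depends on `b, K, s, D, r` only, not on the
`t_k`. In other words, `(ζ(j))_{j ∈ J}` is not close to rational affine subspaces of dimension `D`.

Proof. Let `R = |J| + r - D` linearly independent near relations be given. By Cramer's rule all the `ζ(j)`, `j ∈ J`, are
close to `(c_j + ∑_f c_{jf} y_f) / Δ` with integers `Δ, c_j, c_{jf}` of absolute value at most `(R + 1)! X ^ (R + 1)`, where
the `y_f` are at most `D` of the `ζ(j)` and `t_k` (the coordinate `1` can be avoided as a pivot, because an integer of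
absolute value less than one vanishes). Dirichlet's theorem for the `y_f` gives simultaneous rational approximations of
all the `ζ(j)`, `j ∈ J`, which contradict the starting file `Pool/Agent/Results/MP_c2395a_nt/OddZetaTwoThirds.lean`.
-/

set_option autoImplicit false

namespace Pool.Agent.Results.MP_c2395a_nt.NearRelationsManyZeta

/-- **Near relations between many odd zeta values and arbitrary numbers.** Let `K ≥ 1` and
`2^(264 (D + 1)) (b + 1)² K³ log (K + 1) ≤ s²`, and let `r`, `R` be given. For all large integers `X`, all real numbers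
`t_1, …, t_r`, all sets `J` of odd integers in `(b, s]` which contain all but fewer than `K` of these odd integers, with
`|J| + r ≤ R + D`, and all `R` linearly independent integer vectors `v_i = (a, (a_j), (e_k))` of norm at most `X`, one of
the `R` numbers `|a + ∑_j a_j ζ(j) + ∑_k e_k t_k|` is at least `X ^ (-(R + 2) (2 D + 2))`. -/
theorem result (b K s D r R : ℕ) (hK : 1 ≤ K)
    (hs : (2 : ℝ) ^ (264 * (D + 1)) * ((b : ℝ) + 1) ^ 2 * (K : ℝ) ^ 3 * Real.log (K + 1) ≤ (s : ℝ) ^ 2) :
    ∃ X₀ : ℕ, ∀ X : ℕ, X₀ ≤ X → ∀ (t : Fin r → ℝ) (J : Finset ℕ), (∀ j ∈ J, b < j ∧ j ≤ s ∧ Odd j) →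
      Set.ncard {j : ℕ | b < j ∧ j ≤ s ∧ Odd j ∧ j ∉ J} < K → J.card + r ≤ R + D →
      ∀ v : Fin R → ℤ × (J → ℤ) × (Fin r → ℤ), LinearIndependent ℤ v → (∀ i, ‖v i‖ ≤ X) →
      ∃ i, 1 / (X : ℝ) ^ ((R + 2) * (2 * D + 2)) ≤
        |((v i).1 : ℝ) + ∑ j : J, ((v i).2.1 j : ℝ) * (∑' n : ℕ, 1 / ((n : ℝ) + 1) ^ (j : ℕ)) +
          ∑ k, ((v i).2.2 k : ℝ) * t k| :=
  Pool.Agent.H55NR.main b K s D r R hK hs

end Pool.Agent.Results.MP_c2395a_nt.NearRelationsManyZeta
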